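import Pool.Agent.H821.MU.Supp
import Pool.Agent.Helper932.IdealCount

/-!
# Ideals with a large divisor composed of primes of an abc point

The counting argument: ideal `I = J M`, the primes of `J` among those of the point.
-/

set_option autoImplicit false

namespace Pool.Agent.H821.MU

open NumberField IsDedekindDomain Finset

variable {K : Type} [Field K] [NumberField K]

theorem norm_ge_one {I : Ideal (𝓞 K)} (hI : I ≠ ⊥) : (1 : ℝ) ≤ Ideal.absNorm I := by
  have : Ideal.absNorm I ≠ 0 := fun h => hI (Ideal.absNorm_eq_zero_iff.1 h)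
  exact_mod_cast Nat.one_le_iff_ne_zero.2 this

theorem one_le_prodN (S : Finset (HeightOneSpectrum (𝓞 K))) : (1 : ℝ) ≤ ∏ v ∈ S, N v := by
  classical
  induction S using Finset.induction_on with
  | empty => simp
  | insert v s hv ih =>
    rw [Finset.prod_insert hv]
    nlinarith [two_le_N v]

open Classical in
theorem prodN_union (S T : Finset (HeightOneSpectrum (𝓞 K))) :
    ∏ v ∈ T ∪ S, N v = (∏ v ∈ T, N v) * ∏ v ∈ S \ T, N v := by
  rw [← Finset.union_sdiff_self_eq_union, Finset.prod_union Finset.disjoint_sdiff]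

open Classical in
theorem prodN_le (S T : Finset (HeightOneSpectrum (𝓞 K))) :
    ∏ v ∈ S, N v ≤ (∏ v ∈ T, N v) * ∏ v ∈ S \ T, N v := by
  rw [← prodN_union]
  have h1 : ∏ v ∈ T ∪ S, N v = (∏ v ∈ (T ∪ S) \ S, N v) * ∏ v ∈ S, N v :=
    (Finset.prod_sdiff Finset.subset_union_right).symm
  have h2 := one_le_prodN ((T ∪ S) \ S)
  have h3 := one_le_prodN S
  rw [h1]
  nlinarith

theorem exists_cell {X R L : ℝ} (hR1 : 1 ≤ R) (hR : R ≤ X ^ L) {m : ℕ}
    (hm : 0 < m) : ∃ j ∈ range m, X ^ (L * ((j : ℝ) / m)) ≤ R ∧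
      R ≤ X ^ (L * (((j : ℝ) + 1) / m)) := by
  classical
  have hm' : (0 : ℝ) < m := by exact_mod_cast hm
  have hex : ∃ j : ℕ, R ≤ X ^ (L * (((j : ℝ) + 1) / m)) := by
    refine ⟨m - 1, ?_⟩
    rw [Nat.cast_pred hm, sub_add_cancel, div_self hm'.ne', mul_one]
    exact hR
  have h1 := Nat.find_spec hex
  have h2 : Nat.find hex ≤ m - 1 := Nat.find_min' hex (by
    rw [Nat.cast_pred hm, sub_add_cancel, div_self hm'.ne', mul_one]
    exact hR)
  refine ⟨Nat.find hex, Finset.mem_range.2 (by omega), ?_, h1⟩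
  rcases Nat.eq_zero_or_pos (Nat.find hex) with h0 | h0
  · rw [h0]
    simpa using hR1
  · have h3 := Nat.find_min hex (m := Nat.find hex - 1) (by omega)
    rw [Nat.cast_pred h0, sub_add_cancel] at h3
    exact (not_le.1 h3).le

/-- **the count** -/
theorem core (K : Type) [Field K] [NumberField K] (sp : K → Finset (HeightOneSpectrum (𝓞 K)))
    (Pt : K → Prop) (T : Finset (HeightOneSpectrum (𝓞 K))) {ρ : ℝ} (hρ : 0 < ρ)
    (hmain : ∀ ε : ℝ, 0 < ε → ∃ D : ℝ, 0 < D ∧ ∀ X : ℝ, 1 ≤ X → ∀ F : Finset K,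
      (∀ x ∈ F, Pt x ∧ ∀ S : Finset (HeightOneSpectrum (𝓞 K)),
        (∀ v, v ∈ S ↔ v ∈ sp x ∧ v ∉ T) → ∏ v ∈ S, N v ≤ X) → (F.card : ℝ) ≤ D * X ^ (ρ + ε))
    {ε η : ℝ} (hε0 : 0 < ε) (hε1 : ε ≤ 1) (hη : η < ε) :
    ∃ C : ℝ, 0 < C ∧ ∀ X : ℝ, 1 ≤ X → ∀ G : Finset (Ideal (𝓞 K)),
      (∀ I ∈ G, I ≠ ⊥ ∧ (Ideal.absNorm I : ℝ) ≤ X ∧ ∃ y : K, Pt y ∧ ∃ J : Ideal (𝓞 K), J ∣ I ∧
        (∀ v : HeightOneSpectrum (𝓞 K), v.asIdeal ∣ J → v ∈ T ∨ v ∈ sp y) ∧
        ∀ R : ℝ, (∀ S : Finset (HeightOneSpectrum (𝓞 K)), (∀ v, v ∈ S ↔ v ∈ sp y ∧ v ∉ T) →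
          R = ∏ v ∈ S, N v) →
        (Ideal.absNorm I : ℝ) ^ ε * R ^ ρ < (Ideal.absNorm J : ℝ)) →
      (G.card : ℝ) ≤ C * X ^ (1 - η) := by
  classical
  set θ : ℝ := ε - η with hθd
  have hθ : 0 < θ := by rw [hθd]; linarith
  have hL : 0 < 1 / ρ := by positivity
  obtain ⟨D, hD, hmn⟩ := hmain (ρ * (θ / 4)) (by positivity)
  obtain ⟨C1, hC1, hid⟩ := Pool.Agent.Helper932.exists_upper K
  set Q : ℝ := ∏ v ∈ T, N v with hQd
  have hQ1 : 1 ≤ Q := one_le_prodN T
  obtain ⟨C2, hC2, hsc⟩ := supp_count K (κ := 1 / ρ) (Q := Q) (ε := θ / 4) hL.le hQ1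
    (by positivity)
  obtain ⟨m, hm⟩ := exists_nat_gt (4 / θ)
  have hm0 : (0 : ℝ) < m := lt_trans (by positivity) hm
  have hmpos : 0 < m := by exact_mod_cast hm0
  have hmθ : 1 / (m : ℝ) ≤ θ / 4 := by
    rw [div_lt_iff₀ hθ] at hm
    rw [div_le_div_iff₀ hm0 (by norm_num)]
    linarith
  set Z : ℝ := D * (C2 * C1) with hZ
  have hZ0 : 0 < Z := by positivity
  refine ⟨m * Z, by positivity, fun X hX G hG => ?_⟩
  have hX0 : 0 < X := by linarith
  have hex : ∀ I : Ideal (𝓞 K), ∃ y : K, ∃ J M : Ideal (𝓞 K), I ∈ G → Pt y ∧ I = J * M ∧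
      (∀ v : HeightOneSpectrum (𝓞 K), v.asIdeal ∣ J → v ∈ T ∪ sp y) ∧
      (Ideal.absNorm I : ℝ) ^ ε * (∏ v ∈ sp y \ T, N v) ^ ρ < (Ideal.absNorm J : ℝ) := by
    intro I
    by_cases hI : I ∈ G
    · obtain ⟨_, _, y, hy, J, ⟨M, hM⟩, hs, hlt⟩ := hG I hI
      refine ⟨y, J, M, fun _ => ⟨hy, hM, fun v hv => Finset.mem_union.2 (hs v hv), ?_⟩⟩
      refine hlt _ fun S hS => ?_
      have : S = sp y \ T := by
        ext v
        rw [hS, Finset.mem_sdiff]
      rw [this]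
    · exact ⟨0, ⊥, ⊥, fun h => absurd h hI⟩
  choose y J M hyJM using hex
  set R : Ideal (𝓞 K) → ℝ := fun I => ∏ v ∈ sp (y I) \ T, N v with hR
  have hR1 : ∀ I, 1 ≤ R I := fun I => one_le_prodN _
  -- basic facts
  have hfact : ∀ I ∈ G, I ≠ ⊥ ∧ J I ≠ ⊥ ∧ M I ≠ ⊥ ∧ (Ideal.absNorm (J I) : ℝ) ≤ X ∧
      R I ≤ X ^ (1 / ρ) ∧ (Ideal.absNorm (M I) : ℝ) * R I ^ ρ ≤ X ^ (1 - ε) := by
    intro I hI
    obtain ⟨hb, hn, -⟩ := hG I hI
    obtain ⟨hpt, he, hs, hlt⟩ := hyJM I hI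
    have hJ : J I ≠ ⊥ := by
      intro h
      apply hb
      rw [he, h]
      exact Ideal.bot_mul _
    have hM : M I ≠ ⊥ := by
      intro h
      apply hb
      rw [he, h]
      exact Ideal.mul_bot _
    have hN : (Ideal.absNorm I : ℝ) = Ideal.absNorm (J I) * Ideal.absNorm (M I) := by
      conv_lhs => rw [he]
      rw [map_mul]
      push_cast
      rfl
    have h1 := norm_ge_one hb
    have h2 := norm_ge_one hJ
    have h3 := norm_ge_one hM
    have hJX : (Ideal.absNorm (J I) : ℝ) ≤ X := by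
      refine le_trans ?_ hn
      rw [hN]
      nlinarith
    have hI1 : (1 : ℝ) ≤ (Ideal.absNorm I : ℝ) ^ ε := Real.one_le_rpow h1 hε0.le
    have hRpos : 0 < R I ^ ρ := Real.rpow_pos_of_pos (by linarith [hR1 I]) _
    have h4 : R I ^ ρ ≤ X := by
      refine le_trans ?_ (hlt.le.trans hJX)
      show R I ^ ρ ≤ _ * R I ^ ρ
      nlinarith
    refine ⟨hb, hJ, hM, hJX, ?_, ?_⟩
    · have h5 : R I = (R I ^ ρ) ^ (1 / ρ) := by
        rw [← Real.rpow_mul (by linarith [hR1 I]), mul_one_div_cancel hρ.ne', Real.rpow_one]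
      rw [h5]
      exact Real.rpow_le_rpow hRpos.le h4 hL.le
    · have h6 : (Ideal.absNorm I : ℝ) ^ ε * R I ^ ρ * Ideal.absNorm (M I) ≤
          (Ideal.absNorm I : ℝ) := by
        rw [hN]
        have : (Ideal.absNorm I : ℝ) ^ ε * R I ^ ρ ≤ (Ideal.absNorm (J I) : ℝ) := hlt.le
        rw [hN] at this
        exact mul_le_mul_of_nonneg_right this (by linarith)
      have h7 : (Ideal.absNorm (M I) : ℝ) * R I ^ ρ ≤ (Ideal.absNorm I : ℝ) ^ (1 - ε) := by
        rw [Real.rpow_sub (by linarith), Real.rpow_one, le_div_iff₀ (by linarith)]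
        linarith
      exact h7.trans (Real.rpow_le_rpow (by linarith) hn (by linarith))
  -- the cells
  have hcell : ∀ j ∈ range m, ((G.filter fun I => X ^ (1 / ρ * ((j : ℝ) / m)) ≤ R I ∧
      R I ≤ X ^ (1 / ρ * (((j : ℝ) + 1) / m))).card : ℝ) ≤ Z * X ^ (1 - η) := by
    intro j hj
    have hjm : (j : ℝ) + 1 ≤ m := by
      have := Finset.mem_range.1 hj
      exact_mod_cast this
    set a : ℝ := 1 / ρ * ((j : ℝ) / m) with ha
    set b : ℝ := 1 / ρ * (((j : ℝ) + 1) / m) with hb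
    have hba : b * ρ = ρ * a + 1 / m := by
      rw [ha, hb]
      field_simp
    have hb32 : b ≤ 1 / ρ := by
      rw [hb]
      have : ((j : ℝ) + 1) / m ≤ 1 := (div_le_one hm0).2 hjm
      exact mul_le_of_le_one_right hL.le this
    have ha0 : 0 ≤ a := by rw [ha]; positivity
    have hb0 : 0 ≤ b := by rw [hb]; positivity
    set H := G.filter fun I => X ^ a ≤ R I ∧ R I ≤ X ^ b with hH
    set Y : ℝ := X ^ (1 - ε - ρ * a) with hY
    have hY0 : 0 < Y := Real.rpow_pos_of_pos hX0 _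
    -- the points
    have hF : ((H.image y).card : ℝ) ≤ D * (X ^ b) ^ (ρ + ρ * (θ / 4)) := by
      refine hmn _ (Real.one_le_rpow hX hb0) _ ?_
      intro x hx
      obtain ⟨I, hI, rfl⟩ := Finset.mem_image.1 hx
      obtain ⟨hIG, -, hIb⟩ := Finset.mem_filter.1 hI
      refine ⟨(hyJM I hIG).1, fun S hS => ?_⟩
      have : S = sp (y I) \ T := by
        ext v
        rw [hS, Finset.mem_sdiff]
      rw [this]
      exact hIb
    -- the fibres
    have hfib : ∀ x ∈ H.image y, ((H.filter fun I => y I = x).card : ℝ) ≤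
        C2 * X ^ (θ / 4) * (C1 * Y) := by
      intro x hx
      set H' := H.filter fun I => y I = x with hH'
      have hsub : ∀ I ∈ H', I ∈ G ∧ X ^ a ≤ R I ∧ R I ≤ X ^ b ∧ y I = x := by
        intro I hI
        obtain ⟨h1, h2⟩ := Finset.mem_filter.1 hI
        obtain ⟨h3, h4, h5⟩ := Finset.mem_filter.1 h1
        exact ⟨h3, h4, h5, h2⟩
      have hMY : ∀ I ∈ H', (Ideal.absNorm (M I) : ℝ) ≤ Y := by
        intro I hI
        obtain ⟨hIG, h1, h2, h3⟩ := hsub I hI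
        obtain ⟨-, -, -, -, -, h4⟩ := hfact I hIG
        have h5 : X ^ (ρ * a) ≤ R I ^ ρ := by
          rw [mul_comm, Real.rpow_mul hX0.le]
          exact Real.rpow_le_rpow (by positivity) h1 hρ.le
        have h6 : (Ideal.absNorm (M I) : ℝ) * X ^ (ρ * a) ≤ X ^ (1 - ε) :=
          (mul_le_mul_of_nonneg_left h5 (by positivity)).trans h4
        rw [hY, Real.rpow_sub hX0, le_div_iff₀ (by positivity)]
        exact h6
      have hinj : Set.InjOn (fun I => (J I, M I)) (H' : Set (Ideal (𝓞 K))) := by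
        intro I hI I' hI' h
        have e1 := (hyJM I (hsub I hI).1).2.1
        have e2 := (hyJM I' (hsub I' hI').1).2.1
        simp only [Prod.mk.injEq] at h
        rw [e1, e2, h.1, h.2]
      have hmaps : ∀ I ∈ H', (fun I => (J I, M I)) I ∈
          (H'.image J) ×ˢ (Pool.Agent.Helper932.idealsLe K ⌊Y⌋₊) := by
        intro I hI
        refine Finset.mem_product.2 ⟨Finset.mem_image_of_mem _ hI, ?_⟩
        rw [Pool.Agent.Helper932.mem_idealsLe]
        exact ⟨(hfact I (hsub I hI).1).2.2.1, Nat.le_floor (hMY I hI)⟩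
      have hcard := Finset.card_le_card_of_injOn _ hmaps hinj
      rw [Finset.card_product] at hcard
      have hJc : ((H'.image J).card : ℝ) ≤ C2 * X ^ (θ / 4) := by
        refine hsc X hX (T ∪ sp x) ?_ _ ?_
        · obtain ⟨I, hI, rfl⟩ := Finset.mem_image.1 hx
          obtain ⟨hIG, h1, h2⟩ := Finset.mem_filter.1 hI
          rw [prodN_union]
          exact mul_le_mul_of_nonneg_left (hfact I hIG).2.2.2.2.1 (by linarith)
        · intro J' hJ'
          obtain ⟨I, hI, rfl⟩ := Finset.mem_image.1 hJ'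
          obtain ⟨hIG, h1, h2, h3⟩ := hsub I hI
          refine ⟨(hfact I hIG).2.1, (hfact I hIG).2.2.2.1, fun v hv => ?_⟩
          rw [← h3]
          exact (hyJM I hIG).2.2.1 v hv
      have hMc : ((Pool.Agent.Helper932.idealsLe K ⌊Y⌋₊).card : ℝ) ≤ C1 * Y :=
        (hid _).trans (mul_le_mul_of_nonneg_left (Nat.floor_le hY0.le) hC1.le)
      calc (H'.card : ℝ) ≤ ((H'.image J).card * (Pool.Agent.Helper932.idealsLe K ⌊Y⌋₊).card : ℕ) := by
            exact_mod_cast hcard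
        _ = ((H'.image J).card : ℝ) * ((Pool.Agent.Helper932.idealsLe K ⌊Y⌋₊).card : ℝ) :=
            Nat.cast_mul _ _
        _ ≤ _ := mul_le_mul hJc hMc (by positivity) (by positivity)
    have htot : (H.card : ℝ) ≤ (D * (X ^ b) ^ (ρ + ρ * (θ / 4))) *
        (C2 * X ^ (θ / 4) * (C1 * Y)) := by
      rw [Finset.card_eq_sum_card_image y H]
      push_cast
      refine (Finset.sum_le_sum hfib).trans ?_
      rw [Finset.sum_const, nsmul_eq_mul]
      exact mul_le_mul_of_nonneg_right hF (by positivity)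
    refine htot.trans ?_
    rw [← Real.rpow_mul hX0.le]
    have e1 : D * X ^ (b * (ρ + ρ * (θ / 4))) * (C2 * X ^ (θ / 4) * (C1 * Y)) =
        Z * (X ^ (b * (ρ + ρ * (θ / 4))) * X ^ (θ / 4) * Y) := by rw [hZ]; ring
    rw [e1, hY, ← Real.rpow_add hX0, ← Real.rpow_add hX0]
    refine mul_le_mul_of_nonneg_left ?_ hZ0.le
    refine Real.rpow_le_rpow_of_exponent_le hX ?_
    have e2 : b * (ρ + ρ * (θ / 4)) ≤ ρ * a + 1 / m + θ / 4 := by
      have e3 : b * ρ ≤ 1 := by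
        have := mul_le_mul_of_nonneg_right hb32 hρ.le
        rwa [one_div, inv_mul_cancel₀ hρ.ne'] at this
      have e4 : b * (ρ + ρ * (θ / 4)) = b * ρ + (b * ρ) * (θ / 4) := by ring
      have e5 : (b * ρ) * (θ / 4) ≤ 1 * (θ / 4) := mul_le_mul_of_nonneg_right e3 (by positivity)
      rw [e4]
      linarith
    have : θ = ε - η := hθd
    linarith
  -- conclusion
  have hcov : G ⊆ (range m).biUnion fun j => G.filter fun I => X ^ (1 / ρ * ((j : ℝ) / m)) ≤ R I ∧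
      R I ≤ X ^ (1 / ρ * (((j : ℝ) + 1) / m)) := by
    intro I hI
    obtain ⟨j, hj, h1, h2⟩ := exists_cell (hR1 I) (hfact I hI).2.2.2.2.1 hmpos
    exact Finset.mem_biUnion.2 ⟨j, hj, Finset.mem_filter.2 ⟨hI, h1, h2⟩⟩
  have h1 : (G.card : ℝ) ≤ ∑ j ∈ range m, ((G.filter fun I => X ^ (1 / ρ * ((j : ℝ) / m)) ≤ R I ∧
      R I ≤ X ^ (1 / ρ * (((j : ℝ) + 1) / m))).card : ℝ) := by
    exact_mod_cast (Finset.card_le_card hcov).trans Finset.card_biUnion_le
  refine h1.trans ((Finset.sum_le_sum hcell).trans (le_of_eq ?_))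
  rw [Finset.sum_const, nsmul_eq_mul, Finset.card_range]
  ring

end Pool.Agent.H821.MU
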