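import Mathlib

/-!
# Ideals of a number field with prescribed prime factors

The number of the ideals of norm at most `X` all of whose prime factors belong to a set `S` of primes
with product of norms `≤ Q X ^ κ` is `O(X ^ ε)` (Rankin), and the number of the ideals of norm at most
`Y` is `O(Y)`.
-/

set_option autoImplicit false

namespace Pool.Agent.H821.MU

open NumberField IsDedekindDomain Finset

variable {K : Type} [Field K] [NumberField K]

/-- the norm of a prime -/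
noncomputable abbrev N (v : HeightOneSpectrum (𝓞 K)) : ℝ := (Ideal.absNorm v.asIdeal : ℝ)

theorem two_le_N (v : HeightOneSpectrum (𝓞 K)) : 2 ≤ N v := by
  have h0 : Ideal.absNorm v.asIdeal ≠ 0 := fun h => v.ne_bot (Ideal.absNorm_eq_zero_iff.1 h)
  have h1 : Ideal.absNorm v.asIdeal ≠ 1 := fun h => v.isPrime.ne_top (Ideal.absNorm_eq_one_iff.1 h)
  have h2 : 2 ≤ Ideal.absNorm v.asIdeal := by omega
  exact_mod_cast h2

open Classical in
/-- the exponent of a prime in an ideal -/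
noncomputable def ex (I : Ideal (𝓞 K)) (v : HeightOneSpectrum (𝓞 K)) : ℕ :=
  (UniqueFactorizationMonoid.normalizedFactors I).count v.asIdeal

theorem asIdeal_inj : Function.Injective
    (fun v : HeightOneSpectrum (𝓞 K) => v.asIdeal) := fun _ _ h => HeightOneSpectrum.ext h

theorem eq_prod {I : Ideal (𝓞 K)} (hI : I ≠ ⊥) {S : Finset (HeightOneSpectrum (𝓞 K))}
    (hS : ∀ v : HeightOneSpectrum (𝓞 K), v.asIdeal ∣ I → v ∈ S) :
    I = ∏ v ∈ S, v.asIdeal ^ (ex I v) := by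
  classical
  have h1 : (UniqueFactorizationMonoid.normalizedFactors I).prod = I :=
    Ideal.prod_normalizedFactors_eq_self hI
  have h2 := Finset.prod_multiset_count (UniqueFactorizationMonoid.normalizedFactors I)
  have h3 : ∏ v ∈ S, v.asIdeal ^ (ex I v) = ∏ m ∈ S.image (fun v => v.asIdeal),
      m ^ ((UniqueFactorizationMonoid.normalizedFactors I).count m) := by
    rw [Finset.prod_image (fun a _ b _ h => asIdeal_inj h)]
    refine Finset.prod_congr rfl fun v _ => ?_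
    congr 1
  rw [h3]
  conv_lhs => rw [← h1, h2]
  refine Finset.prod_subset ?_ ?_
  · intro m hm
    rw [Multiset.mem_toFinset] at hm
    have hp := UniqueFactorizationMonoid.prime_of_normalized_factor m hm
    have hd := UniqueFactorizationMonoid.dvd_of_mem_normalizedFactors hm
    have hm0 : m ≠ ⊥ := hp.ne_zero
    refine Finset.mem_image.2 ⟨⟨m, Ideal.isPrime_of_prime hp, hm0⟩, hS _ hd, rfl⟩
  · intro m _ hm
    rw [Multiset.mem_toFinset] at hm
    rw [Multiset.count_eq_zero_of_notMem hm, pow_zero]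

theorem norm_eq {I : Ideal (𝓞 K)} (hI : I ≠ ⊥) {S : Finset (HeightOneSpectrum (𝓞 K))}
    (hS : ∀ v : HeightOneSpectrum (𝓞 K), v.asIdeal ∣ I → v ∈ S) :
    (Ideal.absNorm I : ℝ) = ∏ v ∈ S, N v ^ (ex I v) := by
  conv_lhs => rw [eq_prod hI hS]
  rw [map_prod]
  push_cast
  refine Finset.prod_congr rfl fun v _ => ?_
  rw [map_pow]
  push_cast
  rfl

theorem geom_le {r : ℝ} (h0 : 0 ≤ r) (h1 : r < 1) (M : ℕ) :
    ∑ j ∈ range M, r ^ j ≤ (1 - r)⁻¹ := by
  have h := geom_sum_mul_neg r M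
  have h2 : 0 < 1 - r := by linarith
  have h3 : 0 ≤ r ^ M := pow_nonneg h0 M
  have h4 : (∑ j ∈ range M, r ^ j) * (1 - r) ≤ 1 := by rw [h]; linarith
  rw [inv_eq_one_div, le_div_iff₀ h2]
  exact h4

theorem N_pos (v : HeightOneSpectrum (𝓞 K)) : 0 < N v := by linarith [two_le_N v]

theorem r_lt {σ : ℝ} (hσ : 0 < σ) (v : HeightOneSpectrum (𝓞 K)) :
    0 < N v ^ (-σ) ∧ N v ^ (-σ) ≤ 2 ^ (-σ) ∧ (2 : ℝ) ^ (-σ) < 1 := by
  refine ⟨Real.rpow_pos_of_pos (N_pos v) _, ?_, ?_⟩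
  · exact Real.rpow_le_rpow_of_nonpos (by norm_num) (two_le_N v) (by linarith)
  · exact Real.rpow_lt_one_of_one_lt_of_neg (by norm_num) (by linarith)

/-- Rankin's bound -/
theorem rankin {σ : ℝ} (hσ : 0 < σ) {X : ℝ} (hX : 0 < X) (S : Finset (HeightOneSpectrum (𝓞 K)))
    (G : Finset (Ideal (𝓞 K))) (hG : ∀ I ∈ G, I ≠ ⊥ ∧ (Ideal.absNorm I : ℝ) ≤ X ∧
      ∀ v : HeightOneSpectrum (𝓞 K), v.asIdeal ∣ I → v ∈ S) :
    (G.card : ℝ) ≤ X ^ σ * ∏ v ∈ S, (1 - N v ^ (-σ))⁻¹ := by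
  classical
  have h1 : ∀ I ∈ G, (1 : ℝ) ≤ X ^ σ * ∏ v ∈ S, (N v ^ (-σ)) ^ (ex I v) := by
    intro I hI
    obtain ⟨hb, hn, hs⟩ := hG I hI
    have h2 : ∏ v ∈ S, (N v ^ (-σ)) ^ (ex I v) = (Ideal.absNorm I : ℝ) ^ (-σ) := by
      rw [norm_eq hb hs, ← Real.finset_prod_rpow _ _ (fun v _ => by have := N_pos v; positivity)]
      refine Finset.prod_congr rfl fun v _ => ?_
      rw [← Real.rpow_natCast, ← Real.rpow_natCast, ← Real.rpow_mul (N_pos v).le,
        ← Real.rpow_mul (N_pos v).le]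
      ring_nf
    rw [h2]
    have hpos : (0 : ℝ) < (Ideal.absNorm I : ℝ) := by
      have : Ideal.absNorm I ≠ 0 := fun h => hb (Ideal.absNorm_eq_zero_iff.1 h)
      exact_mod_cast Nat.pos_of_ne_zero this
    rw [Real.rpow_neg hpos.le, ← div_eq_mul_inv, le_div_iff₀ (Real.rpow_pos_of_pos hpos _), one_mul]
    exact Real.rpow_le_rpow hpos.le hn hσ.le
  let Φ : Ideal (𝓞 K) → (S → ℕ) := fun I v => ex I v.1
  let M : ℕ := (G.sup fun I => S.sup fun v => ex I v) + 1
  have hinj : Set.InjOn Φ G := by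
    intro I hI J hJ h
    obtain ⟨hb, hn, hs⟩ := hG I hI
    obtain ⟨hb', hn', hs'⟩ := hG J hJ
    rw [eq_prod hb hs, eq_prod hb' hs']
    refine Finset.prod_congr rfl fun v hv => ?_
    have := congrFun h ⟨v, hv⟩
    simp only [Φ] at this
    rw [this]
  have h3 : (G.card : ℝ) ≤ ∑ I ∈ G, X ^ σ * ∏ v ∈ S, (N v ^ (-σ)) ^ (ex I v) := by
    rw [Finset.cast_card]
    exact Finset.sum_le_sum h1
  refine h3.trans ?_
  rw [← Finset.mul_sum]
  refine mul_le_mul_of_nonneg_left ?_ (Real.rpow_nonneg hX.le _)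
  have h4 : ∑ I ∈ G, ∏ v ∈ S, (N v ^ (-σ)) ^ (ex I v) =
      ∑ e ∈ G.image Φ, ∏ v : S, (N v.1 ^ (-σ)) ^ (e v) := by
    rw [Finset.sum_image hinj]
    refine Finset.sum_congr rfl fun I _ => ?_
    exact (Finset.prod_coe_sort S (fun v => (N v ^ (-σ)) ^ (ex I v))).symm
  rw [h4]
  have h5 : G.image Φ ⊆ Fintype.piFinset (fun _ : S => range M) := by
    intro e he
    obtain ⟨I, hI, rfl⟩ := Finset.mem_image.1 he
    rw [Fintype.mem_piFinset]
    intro v
    rw [Finset.mem_range]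
    have a1 : ex I v.1 ≤ S.sup fun v => ex I v := Finset.le_sup (f := fun v => ex I v) v.2
    have a2 : (S.sup fun v => ex I v) ≤ G.sup fun I => S.sup fun v => ex I v :=
      Finset.le_sup (f := fun I => S.sup fun v => ex I v) hI
    show ex I v.1 < M
    omega
  refine (Finset.sum_le_sum_of_subset_of_nonneg h5 fun e _ _ =>
    Finset.prod_nonneg fun v _ => pow_nonneg (r_lt hσ v.1).1.le _).trans ?_
  rw [← Finset.prod_univ_sum (fun _ : S => range M) (fun v j => (N v.1 ^ (-σ)) ^ j)]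
  rw [← Finset.prod_coe_sort S (fun v => (1 - N v ^ (-σ))⁻¹)]
  refine Finset.prod_le_prod (fun v _ => Finset.sum_nonneg fun j _ =>
    pow_nonneg (r_lt hσ v.1).1.le _) fun v _ => ?_
  exact geom_le (r_lt hσ v.1).1.le ((r_lt hσ v.1).2.1.trans_lt (r_lt hσ v.1).2.2) M

theorem finite_primes (B : ℝ) : {v : HeightOneSpectrum (𝓞 K) | N v ≤ B}.Finite := by
  have h := Ideal.finite_setOf_absNorm_le (S := 𝓞 K) ⌊B⌋₊
  refine Set.Finite.of_finite_image (f := fun v : HeightOneSpectrum (𝓞 K) => v.asIdeal)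
    (h.subset ?_) (asIdeal_inj.injOn)
  rintro _ ⟨v, hv, rfl⟩
  exact Nat.le_floor hv

/-- **ideals with prescribed prime factors** -/
theorem supp_count (K : Type) [Field K] [NumberField K] {κ Q ε : ℝ} (hκ : 0 ≤ κ) (hQ : 1 ≤ Q)
    (hε : 0 < ε) : ∃ C : ℝ, 0 < C ∧ ∀ X : ℝ, 1 ≤ X → ∀ S : Finset (HeightOneSpectrum (𝓞 K)),
      ∏ v ∈ S, N v ≤ Q * X ^ κ → ∀ G : Finset (Ideal (𝓞 K)), (∀ I ∈ G, I ≠ ⊥ ∧
        (Ideal.absNorm I : ℝ) ≤ X ∧ ∀ v : HeightOneSpectrum (𝓞 K), v.asIdeal ∣ I → v ∈ S) →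
      (G.card : ℝ) ≤ C * X ^ ε := by
  classical
  set σ : ℝ := ε / 2 with hσd
  have hσ : 0 < σ := by positivity
  set A : ℝ := (1 - 2 ^ (-σ))⁻¹ with hA
  have h2 : (2 : ℝ) ^ (-σ) < 1 := Real.rpow_lt_one_of_one_lt_of_neg (by norm_num) (by linarith)
  have h20 : (0 : ℝ) < (2 : ℝ) ^ (-σ) := by positivity
  have hA1 : 1 ≤ A := by
    rw [hA]
    exact (one_le_inv₀ (by linarith)).2 (by linarith)
  set τ : ℝ := ε / (2 * (κ + 1)) with hτd
  have hτ : 0 < τ := by positivity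
  set B : ℝ := A ^ (1 / τ) with hB
  set V : Finset (HeightOneSpectrum (𝓞 K)) := (finite_primes (K := K) B).toFinset with hV
  refine ⟨A ^ V.card * Q ^ τ, by positivity, fun X hX S hS G hG => ?_⟩
  have hX0 : 0 < X := by linarith
  have h1 := rankin hσ hX0 S G hG
  have h3 : ∏ v ∈ S, (1 - N v ^ (-σ))⁻¹ ≤ ∏ v ∈ S, ((if v ∈ V then A else 1) * N v ^ τ) := by
    refine Finset.prod_le_prod (fun v _ => ?_) fun v _ => ?_
    · have := r_lt hσ v
      exact inv_nonneg.2 (by linarith)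
    · have hr := r_lt hσ v
      have a1 : (1 - N v ^ (-σ))⁻¹ ≤ A := by
        rw [hA]
        exact inv_anti₀ (by linarith) (by linarith)
      have a3 : 1 ≤ N v ^ τ := Real.one_le_rpow (by linarith [two_le_N v]) hτ.le
      split_ifs with hv
      · nlinarith
      · rw [one_mul]
        refine a1.trans ?_
        have a2 : B < N v := by
          by_contra hc
          exact hv (by rw [hV, Set.Finite.mem_toFinset]; exact not_lt.1 hc)
        have a4 : A = B ^ τ := by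
          rw [hB, ← Real.rpow_mul (by linarith), one_div, inv_mul_cancel₀ hτ.ne', Real.rpow_one]
        rw [a4]
        exact Real.rpow_le_rpow (by positivity) a2.le hτ.le
  have h4 : ∏ v ∈ S, ((if v ∈ V then A else 1) * N v ^ τ) ≤ A ^ V.card * (Q * X ^ κ) ^ τ := by
    rw [Finset.prod_mul_distrib]
    refine mul_le_mul ?_ ?_ (Finset.prod_nonneg fun v _ => by have := N_pos v; positivity)
      (by positivity)
    · rw [Finset.prod_ite, Finset.prod_const, Finset.prod_const_one, mul_one]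
      exact pow_le_pow_right₀ hA1 (Finset.card_le_card fun v hv => (Finset.mem_filter.1 hv).2)
    · rw [Real.finset_prod_rpow _ _ (fun v _ => (N_pos v).le)]
      exact Real.rpow_le_rpow (Finset.prod_nonneg fun v _ => (N_pos v).le) hS hτ.le
  have h5 : (Q * X ^ κ) ^ τ ≤ Q ^ τ * X ^ (ε / 2) := by
    rw [Real.mul_rpow (by linarith) (by positivity), ← Real.rpow_mul hX0.le]
    refine mul_le_mul_of_nonneg_left ?_ (by positivity)
    refine Real.rpow_le_rpow_of_exponent_le hX ?_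
    rw [hτd]
    rw [mul_div_assoc', div_le_div_iff₀ (by positivity) (by norm_num)]
    nlinarith
  calc (G.card : ℝ) ≤ X ^ σ * ∏ v ∈ S, (1 - N v ^ (-σ))⁻¹ := h1
    _ ≤ X ^ σ * (A ^ V.card * (Q * X ^ κ) ^ τ) :=
        mul_le_mul_of_nonneg_left (h3.trans h4) (by positivity)
    _ ≤ X ^ σ * (A ^ V.card * (Q ^ τ * X ^ (ε / 2))) := by
        refine mul_le_mul_of_nonneg_left (mul_le_mul_of_nonneg_left h5 (by positivity))
          (by positivity)
    _ = A ^ V.card * Q ^ τ * (X ^ σ * X ^ (ε / 2)) := by ring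
    _ = A ^ V.card * Q ^ τ * X ^ ε := by
        rw [← Real.rpow_add hX0]
        congr 2
        rw [hσd]; ring

end Pool.Agent.H821.MU
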